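import Pool.Agent.H572R4.Stmts

/-! Proof of `TaskD3` (project H572-PI). -/

set_option autoImplicit false

namespace Pool.Agent.H769R3.PI

open Pool.Agent.H572R4 Pool.Agent.Helper446 Pool.Agent.Helper446.Defs Pool.Agent.Helper446.CB

theorem seg_xp_comp : Computable fun x : ℕ × ℕ => seg (xp x.1) x.2 := by
  have h : Primrec fun x : ℕ × ℕ => (List.range x.2).map (fun i => decide (i = x.1)) := by
    refine Primrec.list_map (Primrec.list_range.comp Primrec.snd) ?_
    have h1 : PrimrecRel fun (x : ℕ × ℕ) (i : ℕ) => i = x.1 :=
      Primrec.eq.comp Primrec.snd (Primrec.fst.comp Primrec.fst)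
    exact h1.decide
  exact h.to_comp

theorem seg_qp_comp : Computable fun x : (ℕ × ℕ) × ℕ => seg (qp x.1.1 x.1.2) x.2 := by
  have h : Primrec fun x : (ℕ × ℕ) × ℕ =>
      (List.range x.2).map (fun i => decide (i = x.1.1 ∨ i = x.1.1 + 1 + x.1.2)) := by
    refine Primrec.list_map (Primrec.list_range.comp Primrec.snd) ?_
    have h1 : PrimrecRel fun (x : (ℕ × ℕ) × ℕ) (i : ℕ) => i = x.1.1 :=
      Primrec.eq.comp Primrec.snd (Primrec.fst.comp (Primrec.fst.comp Primrec.fst))
    have h2 : PrimrecRel fun (x : (ℕ × ℕ) × ℕ) (i : ℕ) => i = x.1.1 + 1 + x.1.2 :=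
      Primrec.eq.comp Primrec.snd (Primrec.nat_add.comp (Primrec.nat_add.comp
        (Primrec.fst.comp (Primrec.fst.comp Primrec.fst)) (Primrec.const 1))
        (Primrec.snd.comp (Primrec.fst.comp Primrec.fst)))
    exact (h1.or h2).decide
  exact h.to_comp

theorem seg_eq_len {x y : ℕ → Bool} {n m : ℕ} (h : seg x n = seg y m) : n = m := by
  have := congrArg List.length h
  simpa using this

theorem taskD3 (h1 : TaskD1) : TaskD3 := by
  classical
  intro B hB A hA
  obtain ⟨q, hq, hAq⟩ := RE.re_iff.1 hA
  have hq2 : Computable fun x : ℕ × ℕ => q x.1 x.2 := hq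
  let W : Set (List Bool) := {σ | ∃ j, ∃ s, ∃ t, t ≤ s ∧ q j t = true ∧ σ = seg (xp j) (j + 1 + s)}
  have hW : REPred (fun σ => σ ∈ W) := by
    refine RE.exN (p := fun (σ : List Bool) j => ∃ s, ∃ t, t ≤ s ∧ q j t = true ∧
      σ = seg (xp j) (j + 1 + s)) ?_
    refine RE.exN (p := fun (x : List Bool × ℕ) s => ∃ t, t ≤ s ∧ q x.2 t = true ∧
      x.1 = seg (xp x.2) (x.2 + 1 + s)) ?_
    refine RE.exN (p := fun (x : (List Bool × ℕ) × ℕ) t => t ≤ x.2 ∧ q x.1.2 t = true ∧
      x.1.1 = seg (xp x.1.2) (x.1.2 + 1 + x.2)) ?_
    refine RE.and (RE.le (by fun_prop) (by fun_prop)) (RE.and ?_ ?_)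
    · exact RE.of_bool (hq2.comp (g := fun x : ((List Bool × ℕ) × ℕ) × ℕ => (x.1.1.2, x.2))
        (Pool.Agent.Helper446.RE.cpair (by fun_prop) (by fun_prop)))
    · exact RE.eq (by fun_prop) (seg_xp_comp.comp
        (g := fun x : ((List Bool × ℕ) × ℕ) × ℕ => (x.1.1.2, x.1.1.2 + 1 + x.1.2))
        (Pool.Agent.Helper446.RE.cpair (by fun_prop) (by fun_prop)))
  have hVpi : IsPi01 {x | ∀ n, seg x n ∉ W} := isPi01_iff.2 ⟨W, hW, rfl⟩
  have hz : zz ∈ {x | ∀ n, seg x n ∉ W} := by
    rintro n ⟨j, s, t, -, -, h⟩
    have hn := seg_eq_len h
    subst hn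
    have := seg_eq_iff.1 h j (by omega)
    simp [zz, xp] at this
  -- membership of the special points
  have hxpV : ∀ j, xp j ∉ {x | ∀ n, seg x n ∉ W} ↔ j ∈ A := by
    intro j
    constructor
    · intro h
      simp only [Set.mem_ofPred_eq, not_forall, not_not] at h
      obtain ⟨n, j', s, t, -, hqt, h⟩ := h
      have hn := seg_eq_len h
      subst hn
      have h3 := seg_eq_iff.1 h j' (by omega)
      have : j' = j := by
        simpa [xp] using h3
      subst this
      exact (hAq j').2 ⟨t, hqt⟩
    · intro h hall
      obtain ⟨t, ht⟩ := (hAq j).1 h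
      exact hall (j + 1 + t) ⟨j, t, t, le_rfl, ht, rfl⟩
  let V : LB B := ⟨{x | ∀ n, seg x n ∉ W}, hVpi, by
    rw [hB]; intro x hx; rw [Set.mem_singleton_iff.1 hx]; exact hz⟩
  have hxz : ∀ j, xp j ≠ zz := by
    intro j h
    have := congrFun h j
    simp [xp, zz] at this
  refine ⟨V, fun c hc => ⟨?_, ?_⟩⟩
  · rintro ⟨d, hd, hdV, hcd⟩
    have e1 : d.1 ∩ V.1 = {zz} := by
      have := congrArg Subtype.val hdV
      rw [lb_inf, lb_bot] at this
      exact this.trans hB
    have e2 : c.1 = (c.1 ∩ V.1) ∪ d.1 := by
      have := congrArg Subtype.val hcd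
      rw [lb_sup, lb_inf] at this
      exact this
    have e3 : Rc c.1 ∩ A = Rc d.1 := by
      ext j
      constructor
      · rintro ⟨hj, hjA⟩
        have hj' : xp j ∈ c.1 := hj
        rw [e2] at hj'
        rcases hj' with h | h
        · exact absurd h.2 ((hxpV j).2 hjA)
        · exact h
      · intro hj
        have hj' : xp j ∈ d.1 := hj
        refine ⟨?_, ?_⟩
        · show xp j ∈ c.1
          rw [e2]
          exact Or.inr hj'
        · by_contra hA'
          have h3 : xp j ∈ V.1 := by
            by_contra h4
            exact hA' ((hxpV j).1 h4)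
          have h5 : xp j ∈ d.1 ∩ V.1 := ⟨hj', h3⟩
          rw [e1] at h5
          exact hxz j h5
    rw [e3]
    exact h1 B hB d hd
  · intro hcr
    have hRc : CR (Rc c.1) := h1 B hB c hc
    obtain ⟨c', hc1, hc2⟩ := hc
    obtain ⟨Wc, hWc, hceq⟩ := isPi01_iff.1 c.2.1
    have hzc : zz ∈ c.1 := c.2.2 (by rw [hB]; rfl)
    let Wd : Set (List Bool) := {σ | σ ∈ Wc ∨ ((∃ j, ∃ u, (∀ t < u + 1, q j t = false) ∧
      σ = seg (qp j u) (j + 1 + u + 1)) ∨ ∃ j, (j ∈ Rc c.1 ∧ j ∉ Rc c.1 ∩ A) ∧ σ = seg (xp j) (j + 1))}
    have hWd : REPred (fun σ => σ ∈ Wd) := by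
      refine RE.or hWc (RE.or ?_ ?_)
      · refine RE.exN (p := fun (σ : List Bool) j => ∃ u, (∀ t < u + 1, q j t = false) ∧
          σ = seg (qp j u) (j + 1 + u + 1)) ?_
        refine RE.exN (p := fun (x : List Bool × ℕ) u => (∀ t < u + 1, q x.2 t = false) ∧
          x.1 = seg (qp x.2 u) (x.2 + 1 + u + 1)) ?_
        refine RE.and ?_ ?_
        · refine RE.all_lt (p := fun (x : (List Bool × ℕ) × ℕ) t => q x.1.2 t = false) ?_
            (by fun_prop)
          exact RE.eq (hq2.comp (g := fun x : ((List Bool × ℕ) × ℕ) × ℕ => (x.1.1.2, x.2))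
            (Pool.Agent.Helper446.RE.cpair (by fun_prop) (by fun_prop))) (by fun_prop)
        · exact RE.eq (by fun_prop) (seg_qp_comp.comp
            (g := fun x : (List Bool × ℕ) × ℕ => ((x.1.2, x.2), x.1.2 + 1 + x.2 + 1))
            (Pool.Agent.Helper446.RE.cpair (Pool.Agent.Helper446.RE.cpair (by fun_prop) (by fun_prop)) (by fun_prop)))
      · refine RE.exN (p := fun (σ : List Bool) j => (j ∈ Rc c.1 ∧ j ∉ Rc c.1 ∩ A) ∧
          σ = seg (xp j) (j + 1)) ?_
        refine RE.and (RE.and ?_ ?_) ?_
        · exact RE.comp hRc.to_re (f := fun x : List Bool × ℕ => x.2) (by fun_prop)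
        · exact RE.comp hcr.not.to_re (f := fun x : List Bool × ℕ => x.2) (by fun_prop)
        · exact RE.eq (by fun_prop) (seg_xp_comp.comp
            (g := fun x : List Bool × ℕ => (x.2, x.2 + 1)) (Pool.Agent.Helper446.RE.cpair (by fun_prop) (by fun_prop)))
    have hDpi : IsPi01 {x | ∀ n, seg x n ∉ Wd} := isPi01_iff.2 ⟨Wd, hWd, rfl⟩
    have hD : {x | ∀ n, seg x n ∉ Wd} = {zz} ∪ (c.1 \ V.1) := by
      ext x
      constructor
      · intro hx
        have hxc : x ∈ c.1 := by
          rw [hceq]
          intro n hn
          exact hx n (Or.inl hn)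
        by_cases hxz' : x = zz
        · exact Or.inl hxz'
        right
        refine ⟨hxc, ?_⟩
        -- the first true position
        have hex : ∃ j, x j = true := by
          by_contra h
          push Not at h
          exact hxz' (funext fun i => by rw [Bool.eq_false_iff.2 (h i)]; rfl)
        obtain ⟨hj1, hj2⟩ := And.intro (Nat.find_spec hex) (fun i => @Nat.find_min _ _ hex i)
        set j := Nat.find hex with hjdef
        by_cases hxp : x = xp j
        · rw [hxp]
          rw [hxp] at hxc hx
          have h3 : j ∈ Rc c.1 ∩ A := by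
            by_contra h4
            exact hx (j + 1) (Or.inr (Or.inr ⟨j, ⟨hxc, h4⟩, rfl⟩))
          exact (hxpV j).2 h3.2
        · have hex2 : ∃ u, x (j + 1 + u) = true := by
            by_contra h
            push Not at h
            apply hxp
            funext i
            rcases lt_trichotomy i j with hi | hi | hi
            · have := hj2 i hi
              simp [xp, hi.ne, this]
            · rw [hi]
              simp [xp, hj1]
            · have := h (i - (j + 1))
              rw [show j + 1 + (i - (j + 1)) = i by omega] at this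
              simp [xp, hi.ne', this]
          obtain ⟨hu1, hu2⟩ := And.intro (Nat.find_spec hex2) (fun i => @Nat.find_min _ _ hex2 i)
          set u := Nat.find hex2 with hudef
          have hseg : seg x (j + 1 + u + 1) = seg (qp j u) (j + 1 + u + 1) := by
            rw [seg_eq_iff]
            intro i hi
            simp only [qp]
            rcases lt_trichotomy i j with hi' | hi' | hi'
            · have := hj2 i hi'
              simp only [Bool.not_eq_true] at this
              rw [this]
              symm
              simp only [decide_eq_false_iff_not]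
              omega
            · rw [hi', hj1]
              simp
            · by_cases hi2 : i = j + 1 + u
              · rw [hi2, hu1]
                simp
              · have := hu2 (i - (j + 1)) (by omega)
                rw [show j + 1 + (i - (j + 1)) = i by omega] at this
                simp only [Bool.not_eq_true] at this
                rw [this]
                symm
                simp only [decide_eq_false_iff_not]
                omega
          have h3 : ¬ ∀ t < u + 1, q j t = false := by
            intro h4
            exact hx (j + 1 + u + 1) (Or.inr (Or.inl ⟨j, u, h4, hseg⟩))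
          push Not at h3
          obtain ⟨t, ht, hqt⟩ := h3
          rw [Ne, Bool.not_eq_false] at hqt
          intro hV
          refine hV (j + 1 + u) ⟨j, u, t, by omega, hqt, ?_⟩
          rw [seg_eq_iff]
          intro i hi
          have h5 := seg_eq_iff.1 hseg i (by omega)
          rw [h5]
          simp only [qp, xp, decide_eq_decide]
          omega
      · rintro (hx | ⟨hxc, hxV⟩)
        · rw [Set.mem_singleton_iff.1 hx]
          rintro n (h | ⟨j, u, -, h⟩ | ⟨j, -, h⟩)
          · rw [hceq] at hzc
            exact hzc n h
          · have hn := seg_eq_len h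
            subst hn
            have := seg_eq_iff.1 h j (by omega)
            simp [zz, qp] at this
          · have hn := seg_eq_len h
            subst hn
            have := seg_eq_iff.1 h j (by omega)
            simp [zz, xp] at this
        · have hxV' : ¬ ∀ n, seg x n ∉ W := hxV
          push Not at hxV'
          obtain ⟨n0, j, s, t, hts, hqt, hseg⟩ := hxV'
          have hn0 := seg_eq_len hseg
          subst hn0
          have hx1 : ∀ i < j + 1 + s, x i = xp j i := seg_eq_iff.1 hseg
          have hxj : x j = true := by rw [hx1 j (by omega)]; simp [xp]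
          rintro n (h | ⟨j', u, hall, h⟩ | ⟨j', hj', h⟩)
          · rw [hceq] at hxc
            exact hxc n h
          · have hn := seg_eq_len h
            subst hn
            have h2 := seg_eq_iff.1 h
            -- `j' = j`
            have hxj' : x j' = true := by rw [h2 j' (by omega)]; simp [qp]
            have hjj : j' = j := by
              rcases lt_trichotomy j' j with h3 | h3 | h3
              · have := hx1 j' (by omega)
                rw [hxj'] at this
                simp [xp] at this
                omega
              · exact h3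
              · have := h2 j (by omega)
                rw [hxj] at this
                simp [qp] at this
                omega
            subst hjj
            have hus : s ≤ u := by
              by_contra hlt
              have h4 := hx1 (j' + 1 + u) (by omega)
              rw [h2 (j' + 1 + u) (by omega)] at h4
              have h5 : decide (j' + 1 + u = j' ∨ j' + 1 + u = j' + 1 + u) =
                decide (j' + 1 + u = j') := h4
              rw [decide_eq_decide] at h5
              have h6 := h5.1 (Or.inr rfl)
              omega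
            have := hall t (by omega)
            rw [hqt] at this
            exact Bool.noConfusion this
          · have hn := seg_eq_len h
            subst hn
            have h2 := seg_eq_iff.1 h
            have hxj' : x j' = true := by rw [h2 j' (by omega)]; simp [xp]
            have hjj : j' = j := by
              rcases lt_trichotomy j' j with h3 | h3 | h3
              · have := hx1 j' (by omega)
                rw [hxj'] at this
                simp [xp] at this
                omega
              · exact h3
              · have := h2 j (by omega)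
                rw [hxj] at this
                simp [xp] at this
                omega
            subst hjj
            exact hj'.2 ⟨hj'.1, (hAq j').2 ⟨t, hqt⟩⟩
    have hzV : zz ∈ V.1 := hz
    let d : LB B := ⟨{x | ∀ n, seg x n ∉ Wd}, hDpi, by rw [hB, hD]; exact Set.subset_union_left⟩
    have hd1 : d.1 = {zz} ∪ (c.1 \ V.1) := hD
    have f1 : c.1 ∩ c'.1 = {zz} := by
      have := congrArg Subtype.val hc1
      rw [lb_inf, lb_bot] at this
      exact this.trans hB
    have f2 : c.1 ∪ c'.1 = Set.univ := by
      have := congrArg Subtype.val hc2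
      rw [lb_sup, lb_top] at this
      exact this
    refine ⟨d, ⟨c' ⊔ V, ?_, ?_⟩, ?_, ?_⟩
    · apply Subtype.ext
      refine Eq.trans (b := ({zz} : Set (ℕ → Bool))) ?_ hB.symm
      rw [lb_inf, lb_sup, hd1]
      ext x
      constructor
      · rintro ⟨h3 | h3, h4⟩
        · exact h3
        · rcases h4 with h4 | h4
          · rw [← f1]
            exact ⟨h3.1, h4⟩
          · exact absurd h4 h3.2
      · intro h3
        rw [Set.mem_singleton_iff.1 h3]
        exact ⟨Or.inl rfl, Or.inr hzV⟩
    · apply Subtype.ext
      rw [lb_sup, lb_sup, lb_top, hd1]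
      ext x
      simp only [Set.mem_univ, iff_true]
      have h3 : x ∈ c.1 ∪ c'.1 := by rw [f2]; trivial
      rcases h3 with h3 | h3
      · by_cases h4 : x ∈ V.1
        · exact Or.inr (Or.inr h4)
        · exact Or.inl (Or.inr ⟨h3, h4⟩)
      · exact Or.inr (Or.inl h3)
    · apply Subtype.ext
      refine Eq.trans (b := ({zz} : Set (ℕ → Bool))) ?_ hB.symm
      rw [lb_inf, hd1]
      ext x
      constructor
      · rintro ⟨h3 | h3, h4⟩
        · exact h3
        · exact absurd h4 h3.2
      · intro h3
        rw [Set.mem_singleton_iff.1 h3]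
        exact ⟨Or.inl rfl, hzV⟩
    · apply Subtype.ext
      rw [lb_sup, lb_inf, hd1]
      ext x
      constructor
      · intro h3
        by_cases h4 : x ∈ V.1
        · exact Or.inl ⟨h3, h4⟩
        · exact Or.inr (Or.inr ⟨h3, h4⟩)
      · rintro (h3 | h3 | h3)
        · exact h3.1
        · rw [Set.mem_singleton_iff.1 h3]
          exact hzc
        · exact h3.1

end Pool.Agent.H769R3.PI
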